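import Pool.Agent.Run7.h527.TP.S
import Pool.Agent.Results.MP_03df5c_nt.MultiplicativeValues

/-!
# MP_03df5c_nt: relations between real and `p`-adic multiple zeta values near aliquot sums and arithmetic derivatives

A pattern in `k` variables is a nonempty list of letters `b + u_1 s_1 + ... + u_k s_k`; at a tuple `s` of natural numbers
it gives an index. The first letters may be constant. A family `Z` is a function from the indices to a commutative
`ℚ`-algebra with the stuffle product, for example the `p`-adic multiple zeta values for a prime `p`. The tuple `s` is bad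
for `Z` (and `D`, `H`) if a polynomial relation of degree at most `D` with integer coefficients at most `H` between the real
multiple zeta values of the patterns at `s` fails for `Z`.

Let each of `F_1(m), ..., F_k(m)` be the sum of the proper divisors of `m`, the cototient `m - φ(m)`, the arithmetic derivative
`m'` (with `p' = 1` for primes and Leibniz' rule), or a positive combination `α m + β f(m)` with `f = σ`, `φ` or the arithmetic
derivative.

(1) Let `0 ≤ θ`, `τ ≤ 1`, `k (θ + 1 - τ) < 1` (for `k = 1`: `θ < τ`; for `k = 2`: `τ > 1 / 2 + θ`). For all `m` in `[1, N]^k`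
such that every `m_i` has two prime factors `p ≠ q`, not dividing `m_i / (p q) ≥ 2`, with `p q ≥ m_i^τ`, but at most
`N^(k - δ)` of them, NO tuple `s` near the tuple of the values, `|s_i - F_i(m_i)| ≤ F_i(m_i)^θ`, in a cone `T ≤ s_i ≤ κ T`, is bad
for `D` and `H = C ^ T`, for all families `Z` at once for which all the relations between the real multiple zeta values of
the (finitely many) constant fronts of the patterns hold; if the fronts are even (`2a, ..., 2a`, or empty), for all families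
with `Z(2 m) = 0`, `m ≥ 1`, unconditionally: for all primes `p` at once.

(2) One variable: for every `ε > 0` there is `θ > 0` such that for ALL `m ≤ N` but `ε N` no integer `s ≥ 1` with
`|s - F(m)| ≤ F(m)^θ` is bad for `D` and `H = C ^ s`, in the same sense.

Proof. Write `m = j p q`. Then `F(m) = a p q + b (p + q) + c` with integers `a ≠ 0`, `b`, `c` which depend on `j` only, and
`(a p + b) (a q + b) = a F(m) + b² - a c`. So for given `j ≤ N^(1 - τ)` every value is taken for at most `N^ε` pairs `p`, `q`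
(the tool `Run7/h527/TP`). The bad tuples of all scales (starting theorem `AlmostAllArguments`) together with their windows
have a power saving. For small `τ` all but `ε N` integers have two such primes, by the second moment of the number of the
prime factors in `(N^(τ / 2), N^(1 / 8))`.
-/

set_option autoImplicit false

namespace Pool.Agent.Results.MP_03df5c_nt.AliquotSums

open AlmostAllArguments (mzv Letter index AdmissiblePattern fronts EvenFront HasStuffle Transfers Bad BadFor Few part1 part2)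
open Pool.Agent.Results.MP_03df5c_nt.MultiplicativeValues (pow_bound badFor_mono)
open Run7.h527.TP (Bil Two keep_scales keep_one aliquot cototient deriv sig comb)

/-- There is `δ > 0` such that for all large `N`, for all tuples `m ∈ [1, N] ^ k` with `Two τ (m_i)` for all `i` but at most
`N ^ (k - δ)` of them the property `E (C ^ T)` fails for ALL tuples `s` with `|s_i - F_i(m_i)| ≤ F_i(m_i) ^ θ` and
`T ≤ s_i ≤ κ T`, `T ≥ 1`. -/
def ThinTwo {k : ℕ} (κ : ℕ) (C : ℝ) (F : Fin k → ℕ → ℕ) (θ τ : ℝ) (E : ℝ → (Fin k → ℕ) → Prop) : Prop :=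
  ∃ δ : ℝ, 0 < δ ∧ ∃ N₀ : ℕ, ∀ N : ℕ, N₀ ≤ N →
    ({m : Fin k → ℕ | (∀ i, 1 ≤ m i ∧ m i ≤ N ∧ Two τ (m i)) ∧ ∃ (s : Fin k → ℕ) (T : ℕ), 1 ≤ T ∧
      (∀ i, T ≤ s i ∧ s i ≤ κ * T) ∧ (∀ i, |(s i : ℝ) - F i (m i)| ≤ (F i (m i) : ℝ) ^ θ) ∧ E (C ^ T) s}.ncard : ℝ) ≤
      (N : ℝ) ^ ((k : ℝ) - δ)

/-- For all large `N`, for all `m ≤ N` but `ε N` of them the property `E (C ^ s)` fails at `s` for ALL integers `s ≥ 1` with
`|s - F(m)| ≤ F(m) ^ θ`. -/
def ThinOne (C : ℝ) (F : ℕ → ℕ) (θ ε : ℝ) (E : ℝ → (Fin 1 → ℕ) → Prop) : Prop :=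
  ∃ N₀ : ℕ, ∀ N : ℕ, N₀ ≤ N →
    ({m : ℕ | 1 ≤ m ∧ m ≤ N ∧ ∃ s : ℕ, 1 ≤ s ∧ |(s : ℝ) - F m| ≤ (F m : ℝ) ^ θ ∧ E (C ^ s) (fun _ => s)}.ncard : ℝ) ≤ ε * N

lemma two_of_few {k : ℕ} (hk : 1 ≤ k) (κ : ℕ) (C : ℝ) {F : Fin k → ℕ → ℕ} (hF : ∀ i, Bil (F i)) {θ τ : ℝ} (hθ : 0 ≤ θ)
    (hτ : τ ≤ 1) (hθk : k * (θ + 1 - τ) < 1) {E : ℝ → (Fin k → ℕ) → Prop} (hE : ∀ H H' s, H ≤ H' → E H s → E H' s)
    (h : Few (2 * κ) E) : ThinTwo κ C F θ τ E := by
  obtain ⟨K, hK⟩ := h
  obtain ⟨N₁, hN₁⟩ := hK ((max |C| 1) ^ 2)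
  obtain ⟨δ, hδ, N₀, hN₀⟩ := keep_scales hk κ (fun T s => E (C ^ T) s) (fun N s => E (((max |C| 1) ^ 2) ^ N) s)
    (fun N T s h1 h2 h3 => hE _ _ s (pow_bound C h2.le) h3) ⟨K, N₁, fun N hN => hN₁ N hN⟩ hF hθ hτ hθk
  refine ⟨δ, hδ, N₀, fun N hN => le_trans (le_of_eq ?_) (hN₀ N hN)⟩
  congr 2
  ext m
  constructor
  · rintro ⟨h1, s, T, h2, h3, h4, h5⟩
    exact ⟨h1, fun h => h s T h2 h3 h4 h5⟩
  · rintro ⟨h1, h2⟩
    push Not at h2
    obtain ⟨s, T, h2, h3, h4, h5⟩ := h2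
    exact ⟨h1, s, T, h2, h3, h4, h5⟩

/-- **Theorem.** (1) Let `w_1, ..., w_r` be admissible patterns in `k ≥ 1` variables, `D`, `κ` natural numbers, `C` a real
number, `F_1, ..., F_k` functions of the class `Bil`, `θ ≥ 0`, `τ ≤ 1`, `k (θ + 1 - τ) < 1`. There is `δ > 0` such that for all
large `N`, for all `m ∈ [1, N] ^ k` with `Two τ (m_i)` for all `i` but at most `N ^ (k - δ)` of them, no tuple `s` with
`|s_i - F_i(m_i)| ≤ F_i(m_i) ^ θ` and `T ≤ s_i ≤ κ T` is bad, for the degree `D` and the height `C ^ T`, for a family `Z` with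
the stuffle product for which the relations between the real multiple zeta values of the fronts hold; if the fronts are
even, for a family with `Z(2 m) = 0` for all `m ≥ 1`. (2) For every `ε > 0` there is `θ > 0` such that for all patterns in one
variable, `D`, `C` and all `F` of the class `Bil`, for all large `N` and ALL `m ≤ N` but at most `ε N` of them no integer
`s ≥ 1` with `|s - F(m)| ≤ F(m) ^ θ` is bad, for `D` and `C ^ s`, in the same sense. (3) The sum of the proper divisors, the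
cototient, the arithmetic derivative and their positive combinations with the identity are in `Bil`. -/
theorem result :
    (∀ (k r : ℕ), 1 ≤ k → ∀ w : Fin r → List (Letter k), (∀ i, AdmissiblePattern (w i)) → ∀ (D κ : ℕ) (C : ℝ)
      (F : Fin k → ℕ → ℕ), (∀ i, Bil (F i)) → ∀ θ τ : ℝ, 0 ≤ θ → τ ≤ 1 → k * (θ + 1 - τ) < 1 →
      ThinTwo κ C F θ τ (BadFor w D fun _ _ _ Z => Transfers (fronts w) Z) ∧
      ((∀ i, EvenFront (w i)) → ThinTwo κ C F θ τ (BadFor w D fun _ _ _ Z => ∀ m, 1 ≤ m → Z [2 * m] = 0))) ∧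
    (∀ ε : ℝ, 0 < ε → ∃ θ : ℝ, 0 < θ ∧ ∀ (r : ℕ) (w : Fin r → List (Letter 1)), (∀ i, AdmissiblePattern (w i)) →
      ∀ (D : ℕ) (C : ℝ) (F : ℕ → ℕ), Bil F →
      ThinOne C F θ ε (BadFor w D fun _ _ _ Z => Transfers (fronts w) Z) ∧
      ((∀ i, EvenFront (w i)) → ThinOne C F θ ε (BadFor w D fun _ _ _ Z => ∀ m, 1 ≤ m → Z [2 * m] = 0))) ∧
    Bil aliquot ∧ Bil cototient ∧ Bil deriv ∧
      (∀ α β : ℤ, (∀ m : ℕ, 2 ≤ m → 0 < α * m + β * sig m) → Bil (comb α β sig)) ∧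
      (∀ α β : ℤ, (∀ m : ℕ, 2 ≤ m → 0 < α * m + β * Nat.totient m) → Bil (comb α β Nat.totient)) ∧
      ∀ α β : ℤ, (∀ m : ℕ, 2 ≤ m → 0 < α * m + β * deriv m) → Bil (comb α β deriv) := by
  refine ⟨fun k r hk w hw D κ C F hF θ τ hθ hτ hθk => ⟨?_, fun he => ?_⟩, fun ε hε => ?_, Run7.h527.TP.examples⟩
  · exact two_of_few hk κ C hF hθ hτ hθk (fun H H' s => badFor_mono w D _ H H' s) (part1 w hw D (2 * κ))
  · exact two_of_few hk κ C hF hθ hτ hθk (fun H H' s => badFor_mono w D _ H H' s) (part2 w hw he D (2 * κ))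
  · obtain ⟨θ, hθ, h⟩ := keep_one ε hε
    have key : ∀ (C : ℝ) (F : ℕ → ℕ), Bil F → ∀ E : ℝ → (Fin 1 → ℕ) → Prop, (∀ H H' s, H ≤ H' → E H s → E H' s) →
        Few (2 * 1) E → ThinOne C F θ ε E := by
      rintro C F hF E hE ⟨K, hK⟩
      obtain ⟨N₁, hN₁⟩ := hK ((max |C| 1) ^ 2)
      obtain ⟨N₀, hN₀⟩ := h 1 (fun T s => E (C ^ T) s) (fun N s => E (((max |C| 1) ^ 2) ^ N) s)
        (fun N T s h1 h2 h3 => hE _ _ s (pow_bound C h2.le) h3) ⟨K, N₁, fun N hN => hN₁ N hN⟩ F hF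
      refine ⟨N₀, fun N hN => le_trans ?_ (hN₀ N hN)⟩
      have hsub : {m : ℕ | 1 ≤ m ∧ m ≤ N ∧ ∃ s : ℕ, 1 ≤ s ∧ |(s : ℝ) - F m| ≤ (F m : ℝ) ^ θ ∧ E (C ^ s) (fun _ => s)} ⊆
          {m : ℕ | 1 ≤ m ∧ m ≤ N ∧ ¬ ∀ (s : Fin 1 → ℕ) (T : ℕ), 1 ≤ T → (∀ i, T ≤ s i ∧ s i ≤ 1 * T) →
            (∀ i, |(s i : ℝ) - F m| ≤ (F m : ℝ) ^ θ) → ¬ E (C ^ T) s} := by
        rintro m ⟨h1, h2, s, hs, hw', hEs⟩
        exact ⟨h1, h2, fun h4 => h4 (fun _ => s) s hs (fun _ => ⟨le_rfl, (one_mul s).ge⟩) (fun _ => hw') hEs⟩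
      exact_mod_cast Set.ncard_le_ncard hsub ((Set.finite_Icc 1 N).subset fun m hm => ⟨hm.1, hm.2.1⟩)
    refine ⟨θ, hθ, fun r w hw D C F hF => ⟨?_, fun he => ?_⟩⟩
    · exact key C F hF _ (fun H H' s => badFor_mono w D _ H H' s) (part1 w hw D (2 * 1))
    · exact key C F hF _ (fun H H' s => badFor_mono w D _ H H' s) (part2 w hw he D (2 * 1))

end Pool.Agent.Results.MP_03df5c_nt.AliquotSums
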