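import Pool.Agent.Run7.h467.GA.One
import Pool.Agent.Results.MP_03df5c_nt.AlmostAllArguments

/-!
# MP_03df5c_nt: relations between real and `p`-adic multiple zeta values at the entries of all good rational approximations

A pattern in `k` variables is a nonempty list of letters `b + u_1 s_1 + ... + u_k s_k`; at a tuple `s` of natural numbers
it gives an index. The first letters may be constant, such as in `ζ(2, 2, s_1, 3, s_1 + s_2)`. A family `Z` is a function from
the indices to a commutative `ℚ`-algebra with the stuffle product, for example the `p`-adic multiple zeta values for a prime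
`p`. The tuple `s` is bad for `Z` (and `D`, `H`) if a polynomial relation of degree at most `D` with integer coefficients at
most `H` between the real multiple zeta values of the patterns at `s` fails for `Z`.

Let `α` be a point of `ℝ ^ d`, and let `(p, q)`, `p ∈ ℤ ^ d`, run through its approximations with
`|α_i - p_i / q| ≤ c q ^ (-1-σ)`; by Dirichlet's theorem there are infinitely many for `σ = 1 / d`, `c = 1`, for every `α`.
We consider ALL tuples `s` of `k ≤ d + 1` natural numbers of the same order of magnitude which are small linearly independent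
combinations `u_j · p + v_j q` of the entries of such an approximation, up to small errors: with coefficients at most
`c q ^ η` and errors at most `c q ^ θ`. For example `s = (q, p_1, ..., p_d)` or `s = (p_1, ..., p_d)`, with errors at most `c`.

Theorem. (1) For all `α` but a set of Hausdorff dimension at most `(d + (k (d + 2) - 1) η + k θ) / (1 + σ)`, for all patterns
in `k` variables and all `D`, `C`, `c` none of these tuples `s` is bad for `D` and `H = C ^ q`, for all but finitely many
`(p, q)`, for all families `Z` at once for which all the relations between the real multiple zeta values of the (finitely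
many) constant fronts of the patterns hold. For `σ = 1 / d` the bound is smaller than `d` if `(k (d + 2) - 1) η + k θ < 1`; it
is `d ^ 2 / (d + 1)` for `η = θ = 0`. (2) If the constant first letters of each pattern are equal and even (or if there are
none) this holds unconditionally for all families with `Z(2 m) = 0`, `m ≥ 1`: for all primes `p` at once.
(3) Conversely, let `Z` be a family in a domain, with `Z(s) ≠ 0` for all large odd `s` (this holds for the `p`-adic multiple
zeta values). Then the following are equivalent: (a) all polynomial relations between real multiple zeta values hold for `Z`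
(the question for `p`); (b) the conclusion of (1) holds for `Z` and all patterns; (c) for all patterns in one variable with
exactly one letter which is not constant, `s + b`, there is ONE real number `α` such that the conclusion of (1) holds for `Z`
at `α` for `D = 1`, `σ = 1`, `η = θ = 0`.

`AlmostAllArguments` bounds the number of the bad tuples in `[N, κ N] ^ k` by `K N ^ (k - 1)`, `AlongRealTuples` treats the
tuples near `N ξ`, `N` in a sparse set `M`. Here the tuples come from a very thin set of vectors which depends on `α`; the size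
of the set of the exceptional `α` is estimated by the Hausdorff-Cantelli lemma, after a count of the vectors `(q, p)` for which
some independent small forms are near a bad tuple (`Pool.Agent.Run7.h467.GA`).
-/

set_option autoImplicit false

open Filter MeasureTheory

namespace Pool.Agent.Results.MP_03df5c_nt.GoodApproximations

open AlmostAllArguments (mzv Letter index AdmissiblePattern fronts EvenFront OneLarge HasStuffle Transfers Bad BadFor
  part1 part2 c_to_a OneLargeArgument)

/-- The members of the tuple `s` are at distance at most `c q ^ θ` from the values `u_j · p + v_j q` of linearly independent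
integral linear forms with coefficients at most `c q ^ η`. -/
def NearForms {d k : ℕ} (η θ c : ℝ) (p : Fin d → ℤ) (q : ℕ) (s : Fin k → ℕ) : Prop :=
  ∃ (u : Fin k → Fin d → ℤ) (v : Fin k → ℤ),
    (∀ a : Fin k → ℤ, (∀ i, ∑ j, a j * u j i = 0) → ∑ j, a j * v j = 0 → a = 0) ∧
    (∀ j i, |(u j i : ℝ)| ≤ c * (q : ℝ) ^ η) ∧ (∀ j, |(v j : ℝ)| ≤ c * (q : ℝ) ^ η) ∧
    ∀ j, |(s j : ℝ) - (∑ i, (u j i : ℝ) * p i + v j * q)| ≤ c * (q : ℝ) ^ θ

/-- For all `C`, `c` and all but finitely many approximations `(p, q)` of `α` with `|α_i - p_i / q| ≤ c q ^ (-1-σ)` the property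
`E (C ^ q)` fails for all tuples `s` of natural numbers near independent small forms in `(p, q)`, with `s_i ≤ c s_j` and
`q ≤ c s_j` for all `i`, `j`. -/
def Holds {d k : ℕ} (σ η θ : ℝ) (E : ℝ → (Fin k → ℕ) → Prop) (α : Fin d → ℝ) : Prop :=
  ∀ C c : ℝ, ∃ Q : ℕ, ∀ (p : Fin d → ℤ) (q : ℕ), Q ≤ q → (∀ i, |α i - p i / q| ≤ c / (q : ℝ) ^ (1 + σ)) →
    ∀ s : Fin k → ℕ, (∀ i j, (s i : ℝ) ≤ c * s j) → (∀ j, (q : ℝ) ≤ c * s j) → NearForms η θ c p q s → ¬ E (C ^ q) s

/-- Let `E w D H s` be a property of tuples, for patterns `w` in `k` variables. For all `k ≥ 1`, `d`, `σ`, `η`, `θ` the set of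
the `α` in `ℝ ^ d` for which `Holds` fails for some admissible patterns in `k` variables with the property `A` and some `D`
has Hausdorff dimension at most `(d + (k (d + 2) - 1) η + k θ) / (1 + σ)`. -/
def Small (A : ∀ k r : ℕ, (Fin r → List (Letter k)) → Prop)
    (E : ∀ k r : ℕ, (Fin r → List (Letter k)) → ℕ → ℝ → (Fin k → ℕ) → Prop) : Prop :=
  ∀ (k : ℕ), 1 ≤ k → ∀ (d : ℕ) (σ η θ : ℝ), 0 ≤ σ → 0 ≤ η → 0 ≤ θ → θ ≤ 1 →
    dimH {α : Fin d → ℝ | ∃ (r : ℕ) (w : Fin r → List (Letter k)) (D : ℕ), (∀ i, AdmissiblePattern (w i)) ∧ A k r w ∧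
      ¬ Holds σ η θ (E k r w D) α} ≤ ENNReal.ofReal ((d + (k * (d + 2) - 1) * η + k * θ) / (1 + σ))

/-- statement (b): the conclusion for the family `Z` and all patterns -/
def AllPatterns {A : Type} [CommRing A] (Z : List ℕ → A) : Prop :=
  Small (fun _ _ _ => True) fun _ _ w D H s => Bad w D H Z s

/-- statement (c) -/
def OnePoint {A : Type} [CommRing A] (Z : List ℕ → A) : Prop :=
  ∀ (r : ℕ) (w : Fin r → List (Letter 1)), (∀ i, AdmissiblePattern (w i) ∧ OneLarge (w i)) →
    ∃ α : Fin 1 → ℝ, Holds 1 0 0 (fun H s => Bad w 1 H Z s) α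

lemma bad_mono {k r : ℕ} (w : Fin r → List (Letter k)) (D : ℕ) {A : Type} [CommRing A] (Z : List ℕ → A) (H H' : ℝ)
    (s : Fin k → ℕ) (h : H ≤ H') (hB : Bad w D H Z s) : Bad w D H' Z s := by
  obtain ⟨P, h1, h2, h3, h4⟩ := hB
  exact ⟨P, h1, fun m => (h2 m).trans h, h3, h4⟩

lemma badFor_mono {k r : ℕ} (w : Fin r → List (Letter k)) (D : ℕ)
    (F : ∀ (A : Type) [CommRing A] [Algebra ℚ A], (List ℕ → A) → Prop) (H H' : ℝ) (s : Fin k → ℕ) (h : H ≤ H')
    (hB : BadFor w D F H s) : BadFor w D F H' s := by
  obtain ⟨A, i1, i2, Z, h1, h2, h3⟩ := hB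
  exact ⟨A, i1, i2, Z, h1, h2, bad_mono w D Z H H' s h h3⟩

lemma small_of (A : ∀ k r : ℕ, (Fin r → List (Letter k)) → Prop)
    (E : ∀ k r : ℕ, (Fin r → List (Letter k)) → ℕ → ℝ → (Fin k → ℕ) → Prop)
    (hE : ∀ k r w D H H' s, H ≤ H' → E k r w D H s → E k r w D H' s)
    (h : ∀ k r (w : Fin r → List (Letter k)), (∀ i, AdmissiblePattern (w i)) → A k r w → ∀ D κ : ℕ,
      AlmostAllArguments.Few κ (E k r w D)) : Small A E := by
  intro k hk d σ η θ hσ hη hθ hθ1
  have h1 := Run7.h467.GA.metric hk (I := Σ r : ℕ, (Fin r → List (Letter k)) × ℕ)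
    (fun i => (∀ j, AdmissiblePattern (i.2.1 j)) ∧ A k i.1 i.2.1) (fun i => E k i.1 i.2.1 i.2.2)
    (fun i H H' s => hE k i.1 i.2.1 i.2.2 H H' s) (fun i hi κ => h k i.1 i.2.1 hi.1 hi.2 i.2.2 κ)
    d hσ hη hθ hθ1
  refine (dimH_mono ?_).trans h1
  rintro α ⟨r, w, D, hw, hA, hH⟩
  exact ⟨⟨r, w, D⟩, ⟨hw, hA⟩, hH⟩

/-- a linear relation which fails for `Z` -/
lemma bad_of_linear {k r : ℕ} (w : Fin r → List (Letter k)) {A : Type} [CommRing A] (Z : List ℕ → A) (s : Fin k → ℕ)
    (B : ℕ) (H : ℝ) (hB1 : (B : ℝ) ≤ H) (a : Fin r → ℤ) (ha : ∀ i, |a i| ≤ B)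
    (hR : ∑ i, (a i : ℝ) * mzv (index s (w i)) = 0) (hA : ∑ i, (a i : A) * Z (index s (w i)) ≠ 0) : Bad w 1 H Z s := by
  classical
  refine ⟨∑ i, MvPolynomial.C (a i) * MvPolynomial.X i, ?_, fun m => ?_, ?_, ?_⟩
  · refine MvPolynomial.totalDegree_finsetSum_le fun i _ => ?_
    refine (MvPolynomial.totalDegree_mul _ _).trans ?_
    rw [MvPolynomial.totalDegree_C, zero_add]
    exact (MvPolynomial.totalDegree_X _).le
  · rw [MvPolynomial.coeff_sum]
    simp only [MvPolynomial.coeff_C_mul, MvPolynomial.coeff_X]
    refine le_trans ?_ hB1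
    by_cases hm : ∃ i, Finsupp.single i 1 = m
    · obtain ⟨i₀, rfl⟩ := hm
      have h4 : ∑ x, a x * (if Finsupp.single x 1 = Finsupp.single i₀ 1 then (1 : ℤ) else 0) = a i₀ := by
        rw [Finset.sum_eq_single i₀]
        · rw [if_pos rfl, mul_one]
        · intro x _ hx
          rw [if_neg, mul_zero]
          intro h5
          exact hx ((Finsupp.single_left_inj one_ne_zero).1 h5)
        · intro h5
          exact absurd (Finset.mem_univ _) h5
      rw [h4]
      exact_mod_cast ha i₀
    · have h4 : ∑ x, a x * (if Finsupp.single x 1 = m then (1 : ℤ) else 0) = 0 := by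
        refine Finset.sum_eq_zero fun x _ => ?_
        rw [if_neg fun h5 => hm ⟨x, h5⟩, mul_zero]
      rw [h4, Int.cast_zero, abs_zero]
      exact Nat.cast_nonneg _
  · rw [map_sum]
    refine Eq.trans (Finset.sum_congr rfl fun i _ => ?_) hR
    rw [map_mul, MvPolynomial.aeval_C, MvPolynomial.aeval_X]
    rfl
  · rw [map_sum]
    intro h5
    refine hA (Eq.trans (Finset.sum_congr rfl fun i _ => ?_) h5)
    rw [map_mul, MvPolynomial.aeval_C, MvPolynomial.aeval_X]
    rfl

lemma large_of_one {A : Type} [CommRing A] (Z : List ℕ → A) (h : OnePoint Z) : OneLargeArgument Z := by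
  intro r w hw B s₁
  obtain ⟨α, hα⟩ := h r w hw
  obtain ⟨s, h1, h2, h3⟩ := Run7.h467.GA.one_point (fun H H' s => bad_mono w 1 Z H H' s) (C := (B : ℝ) + 1)
    (by have := Nat.cast_nonneg (α := ℝ) B; linarith) hα s₁
  refine ⟨s, h1, h2, fun a ha hR => ?_⟩
  by_contra hA
  exact h3 (bad_of_linear w Z (fun _ => s) B _ (by linarith) a ha hR hA)

lemma one_of_all {A : Type} [CommRing A] (Z : List ℕ → A) (h : AllPatterns Z) : OnePoint Z := by
  have h1 := h 1 le_rfl 1 1 0 0 (by norm_num) le_rfl le_rfl zero_le_one
  obtain ⟨α, hα⟩ := Run7.h467.GA.exists_point le_rfl h1 (by norm_num)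
  intro r w hw
  refine ⟨α, ?_⟩
  by_contra hcon
  exact hα ⟨r, w, 1, fun i => (hw i).1, trivial, hcon⟩

lemma all_of_transfers {A : Type} [CommRing A] [Algebra ℚ A] (Z : List ℕ → A) (hZ : HasStuffle Z)
    (h : Transfers Set.univ Z) : AllPatterns Z :=
  small_of _ _ (fun _ _ w D H H' s => bad_mono w D Z H H' s)
    fun k r w hw _ D κ => AlmostAllArguments.a_to_b Z hZ h k r w hw D κ

/-- **Theorem.** (1) For all `k ≥ 1`, `d`, `σ`, `η`, `θ` the points `α` of `ℝ ^ d` with the following property form a set of
Hausdorff dimension at most `(d + (k (d + 2) - 1) η + k θ) / (1 + σ)`: for some admissible patterns in `k` variables, some `D`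
and some `C`, `c` there are infinitely many `(p, q)` with `|α_i - p_i / q| ≤ c q ^ (-1-σ)` for which a tuple `s` of comparable
numbers near independent small forms in `(p, q)` is bad, for the degree `D` and the height `C ^ q`, for a family `Z` with the
stuffle product for which the relations between the real multiple zeta values of the fronts hold. (2) The same for the patterns
with even fronts and the families with `Z(2 m) = 0` for all `m ≥ 1`. (3) For a family `Z` with the stuffle product in a domain,
with `Z(s) ≠ 0` for all large odd `s`, the following are equivalent: all polynomial relations between real multiple zeta values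
hold for `Z`; `AllPatterns Z`; `OnePoint Z`. -/
theorem result :
    (Small (fun _ _ _ => True) fun _ _ w D => BadFor w D fun _ _ _ Z => Transfers (fronts w) Z) ∧
    (Small (fun _ _ w => ∀ i, EvenFront (w i)) fun _ _ w D => BadFor w D fun _ _ _ Z => ∀ m, 1 ≤ m → Z [2 * m] = 0) ∧
    ∀ (A : Type) [CommRing A] [IsDomain A] [Algebra ℚ A] (Z : List ℕ → A), HasStuffle Z →
      (∃ s₀, ∀ s, s₀ ≤ s → Odd s → Z [s] ≠ 0) →
      (Transfers Set.univ Z ↔ AllPatterns Z) ∧ (AllPatterns Z ↔ OnePoint Z) := by
  refine ⟨small_of _ _ (fun _ _ w D H H' s => badFor_mono w D _ H H' s) fun k r w hw _ D κ => part1 w hw D κ,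
    small_of _ _ (fun _ _ w D H H' s => badFor_mono w D _ H H' s) fun k r w hw he D κ => part2 w hw he D κ, ?_⟩
  intro A _ _ _ Z hZ hs
  obtain ⟨s₀, hne⟩ := hs
  have hback : OnePoint Z → Transfers Set.univ Z := fun h => c_to_a Z hZ s₀ hne (large_of_one Z h)
  exact ⟨⟨all_of_transfers Z hZ, fun h => hback (one_of_all Z h)⟩,
    ⟨one_of_all Z, fun h => all_of_transfers Z hZ (hback h)⟩⟩

end Pool.Agent.Results.MP_03df5c_nt.GoodApproximations
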