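import Pool.Agent.Run7.h430.TO.Scales
import Pool.Agent.Results.MP_03df5c_nt.AlmostAllArguments

/-!
# MP_03df5c_nt: relations between real and `p`-adic multiple zeta values along tuples of orbits of Euler's function

A pattern in `k` variables is a nonempty list of letters `b + u_1 s_1 + ... + u_k s_k`; at a tuple `s` of natural numbers
it gives an index. The first letters may be constant. A family `Z` is a function from the indices to a commutative
`ℚ`-algebra with the stuffle product, for example the `p`-adic multiple zeta values for a prime `p`. The tuple `s` is bad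
for `Z` (and `D`, `H`) if a polynomial relation of degree at most `D` with integer coefficients at most `H` between the real
multiple zeta values of the patterns at `s` fails for `Z`.

Let `φ_j` be the `j`-th iterate of Euler's function, `φ_0(m) = m`, let `F_1, ..., F_k` be positive multiplicative functions of
the order `m ^ (1 + o(1))` with `F_i p ≤ M p` for the large primes `p` and different values at different large primes, for
example the identity, Euler's function or the sum of the divisors, and let `0 ≤ θ`, `k θ < 1`.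

Theorem. (1) There is `K(N)` tending to infinity such that for all but `o(N ^ k)` of the `m ∈ [1, N] ^ k` NO tuple `s` near the
orbits of `m`, `|s_i - a_i F_i(φ_{j_i}(m_i))| ≤ N ^ θ` for some iterates `j_i ≤ K(N)` and multiples `1 ≤ a_i ≤ K(N)`, in a cone
`T ≤ s_i ≤ κ T`, is bad for `D` and `H = C ^ T`: for all families `Z` at once for which all the relations between the real
multiple zeta values of the (finitely many) constant fronts of the patterns hold; if the fronts are even (`2a, ..., 2a`, or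
empty), for all families with `Z(2 m) = 0`, `m ≥ 1`, unconditionally: for all primes `p` at once.

(2) Conversely, let `Z` be a family in a domain, with `Z(s) ≠ 0` for all large odd `s` (this holds for the `p`-adic multiple
zeta values), and let `j ≥ 1` be any iterate. Then the following are equivalent: (a) all polynomial relations between real
multiple zeta values hold for `Z` (the question for `p`); (b) the conclusion of (1) holds for `Z`, for all patterns and all
`F_i`; (c) for all patterns in one variable with exactly one letter which is not constant, `s + b`, for all but `o(N)` of the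
`m ≤ N` the relations of degree one with integer coefficients at most `2 ^ s` hold for `Z` at `s = φ_j(m) + 1`.

The iterates of Euler's function are not multiplicative; the values along the orbits form a thin set and are taken with very
large multiplicities. So (1) does not follow from the number of the bad tuples (`AlmostAllArguments`, helper734: at most
`K N ^ (k - 1)` in `[N, κ N] ^ k`), which is used. The tool is `Pool.Agent.N760.IT` (helper760, one orbit), transferred to tuples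
of orbits, with multiples and windows, in `Run7/h430/TO`.
-/

set_option autoImplicit false

namespace Pool.Agent.Results.MP_03df5c_nt.TotientOrbits

open Filter Topology
open AlmostAllArguments (mzv Letter index AdmissiblePattern fronts EvenFront OneLarge HasStuffle Transfers Bad BadFor Few
  part1 part2 c_to_a OneLargeArgument)

/-- A positive multiplicative function of at most polynomial growth, at most `M p` at the large primes `p` and with different
values at different large primes, and equal to `m ^ (1 + o(1))` for all `m`. -/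
structure Moderate (f : ℕ → ℕ) : Prop where
  mul : ∀ m n : ℕ, Nat.Coprime m n → f (m * n) = f m * f n
  pos : ∀ m : ℕ, 1 ≤ m → 1 ≤ f m
  growth : ∃ C D : ℕ, ∀ m : ℕ, 1 ≤ m → f m ≤ C * m ^ D
  prime : ∃ P M : ℕ, ∀ p : ℕ, P ≤ p → p.Prime → f p ≤ M * p ∧ ∀ q : ℕ, P ≤ q → q.Prime → f q = f p → q = p
  order : ∀ ε : ℝ, 0 < ε → ∃ C : ℝ, 1 ≤ C ∧ ∀ m : ℕ, 1 ≤ m → (m : ℝ) ^ (1 - ε) ≤ C * f m ∧ (f m : ℝ) ≤ C * (m : ℝ) ^ (1 + ε)

/-- the value of `f` at the `j`-th iterate of Euler's function -/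
def orb (f : ℕ → ℕ) (j m : ℕ) : ℕ := f (Nat.totient^[j] m)

/-- the tuple `t` of positive integers is within `w` of a tuple of multiples `a i F i (φ_{j i} (m i))`, `j i, a i ≤ J` -/
def Near {k : ℕ} (F : Fin k → ℕ → ℕ) (J : ℕ) (w : ℝ) (m t : Fin k → ℕ) : Prop :=
  ∃ j a : Fin k → ℕ, (∀ i, j i ≤ J) ∧ (∀ i, 1 ≤ a i ∧ a i ≤ J) ∧
    ∀ i, 1 ≤ t i ∧ |(t i : ℝ) - a i * orb (F i) (j i) (m i)| ≤ w

theorem lm_of {f : ℕ → ℕ} (hf : Moderate f) : Pool.Agent.N733.TG.LM f := ⟨hf.mul, hf.pos, hf.growth, hf.prime⟩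

theorem of_lm {f : ℕ → ℕ} (hf : Pool.Agent.N733.TG.LM f) (hl : Run7.h430.TO.Lin f) : Moderate f :=
  ⟨hf.mul, hf.pos, hf.growth, hf.prime, hl⟩

theorem moderate_examples : Moderate (fun m => m) ∧ Moderate Nat.totient ∧ Moderate (fun m => ∑ d ∈ m.divisors, d) :=
  ⟨of_lm Pool.Agent.N760.IT.lm_id Run7.h430.TO.lin_id, of_lm Pool.Agent.N733.TG.lm_totient Run7.h430.TO.lin_totient,
    of_lm Pool.Agent.N733.TG.lm_sigma Run7.h430.TO.lin_sigma⟩

/-- There is `K(N)` tending to infinity such that for all but `o(N ^ k)` of the tuples `m ∈ [1, N] ^ k` the property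
`E (C ^ T)` fails for ALL tuples `s` with `|s_i - a_i F_i(φ_{j_i}(m_i))| ≤ N ^ θ` for some `j_i ≤ K(N)`, `1 ≤ a_i ≤ K(N)`,
`s_i ≥ 1`, and `T ≤ s_i ≤ κ T`, `T ≥ 1`. -/
def NoneNear {k : ℕ} (κ : ℕ) (C : ℝ) (F : Fin k → ℕ → ℕ) (θ : ℝ) (E : ℝ → (Fin k → ℕ) → Prop) : Prop :=
  ∃ K : ℕ → ℕ, Tendsto K atTop atTop ∧ ∀ ε : ℝ, 0 < ε → ∃ N₀ : ℕ, ∀ N : ℕ, N₀ ≤ N →
    ({m : Fin k → ℕ | (∀ i, 1 ≤ m i ∧ m i ≤ N) ∧ ∃ (s : Fin k → ℕ) (T : ℕ), Near F (K N) ((N : ℝ) ^ θ) m s ∧
      1 ≤ T ∧ (∀ i, T ≤ s i ∧ s i ≤ κ * T) ∧ E (C ^ T) s}.ncard : ℝ) ≤ ε * (N : ℝ) ^ k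

/-- statement (b): for all patterns in `k ≥ 1` variables and all `F_i`, the tuples near the orbits are not bad for `Z`, for
almost all tuples -/
def AllOrbits {A : Type} [CommRing A] (Z : List ℕ → A) : Prop :=
  ∀ (k r : ℕ), 1 ≤ k → ∀ w : Fin r → List (Letter k), (∀ i, AdmissiblePattern (w i)) → ∀ (D κ : ℕ) (C : ℝ)
    (F : Fin k → ℕ → ℕ), (∀ i, Moderate (F i)) → ∀ θ : ℝ, 0 ≤ θ → k * θ < 1 →
    NoneNear κ C F θ (fun H s => Bad w D H Z s)

/-- statement (c): for the patterns in one variable with exactly one letter which is not constant, `s + b`, relations of degree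
one with coefficients at most `2 ^ s`, at `s = φ_j(m) + 1` -/
def OneOrbit {A : Type} [CommRing A] (j : ℕ) (Z : List ℕ → A) : Prop :=
  ∀ (r : ℕ) (w : Fin r → List (Letter 1)), (∀ i, AdmissiblePattern (w i) ∧ OneLarge (w i)) →
    ∀ ε : ℝ, 0 < ε → ∃ N₀ : ℕ, ∀ N : ℕ, N₀ ≤ N →
      ({m : ℕ | 1 ≤ m ∧ m ≤ N ∧ Bad w 1 (2 ^ (Nat.totient^[j] m + 1)) Z (fun _ => Nat.totient^[j] m + 1)}.ncard : ℝ) ≤
        ε * N

lemma pow_bound (C : ℝ) {N T : ℕ} (h : T ≤ 2 * N) : C ^ T ≤ ((max |C| 1) ^ 2) ^ N := by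
  have h5 : (1 : ℝ) ≤ max |C| 1 := le_max_right _ _
  calc C ^ T ≤ |C ^ T| := le_abs_self _
    _ = |C| ^ T := abs_pow C T
    _ ≤ (max |C| 1) ^ T := pow_le_pow_left₀ (abs_nonneg C) (le_max_left _ _) T
    _ ≤ (max |C| 1) ^ (2 * N) := pow_le_pow_right₀ h5 h
    _ = _ := pow_mul _ _ _

lemma none_of_few {k : ℕ} (hk : 1 ≤ k) (κ : ℕ) (C : ℝ) {F : Fin k → ℕ → ℕ} (hF : ∀ i, Moderate (F i)) {θ : ℝ} (hθ : 0 ≤ θ)
    (hθk : k * θ < 1) {E : ℝ → (Fin k → ℕ) → Prop} (hE : ∀ H H' s, H ≤ H' → E H s → E H' s)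
    (h : Few (2 * κ) E) : NoneNear κ C F θ E := by
  obtain ⟨K, hK⟩ := h
  obtain ⟨N₁, hN₁⟩ := hK ((max |C| 1) ^ 2)
  exact Run7.h430.TO.orb_scales hk κ (fun T s => E (C ^ T) s)
    (fun N s => E (((max |C| 1) ^ 2) ^ N) s)
    (fun N T s h1 h2 h3 => hE _ _ s (pow_bound C h2.le) h3)
    ⟨K, N₁, fun N hN => hN₁ N hN⟩ (fun i => lm_of (hF i)) (fun i => (hF i).order) hθ hθk

lemma bad_mono {k r : ℕ} (w : Fin r → List (Letter k)) (D : ℕ) {A : Type} [CommRing A] (Z : List ℕ → A) (H H' : ℝ)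
    (s : Fin k → ℕ) (h : H ≤ H') (hB : Bad w D H Z s) : Bad w D H' Z s := by
  obtain ⟨P, h1, h2, h3, h4⟩ := hB
  exact ⟨P, h1, fun m => (h2 m).trans h, h3, h4⟩

lemma badFor_mono {k r : ℕ} (w : Fin r → List (Letter k)) (D : ℕ)
    (F : ∀ (A : Type) [CommRing A] [Algebra ℚ A], (List ℕ → A) → Prop) (H H' : ℝ) (s : Fin k → ℕ) (h : H ≤ H')
    (hB : BadFor w D F H s) : BadFor w D F H' s := by
  obtain ⟨A, i1, i2, Z, h1, h2, h3⟩ := hB
  exact ⟨A, i1, i2, Z, h1, h2, bad_mono w D Z H H' s h h3⟩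

lemma all_of_transfers {A : Type} [CommRing A] [Algebra ℚ A] (Z : List ℕ → A) (hZ : HasStuffle Z)
    (h : Transfers Set.univ Z) : AllOrbits Z := by
  intro k r hk w hw D κ C F hF θ hθ hθk
  exact none_of_few hk κ C hF hθ hθk (fun H H' s => bad_mono w D Z H H' s)
    (AlmostAllArguments.a_to_b Z hZ h k r w hw D (2 * κ))

lemma one_of_all {A : Type} [CommRing A] (j : ℕ) (Z : List ℕ → A) (h : AllOrbits Z) : OneOrbit j Z := by
  intro r w hw ε hε
  obtain ⟨K, hK, h1⟩ := h 1 r le_rfl w (fun i => (hw i).1) 1 1 2 (fun _ m => m) (fun _ => moderate_examples.1) (1 / 2)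
    (by norm_num) (by norm_num)
  obtain ⟨N₁, hN₁⟩ := h1 ε hε
  obtain ⟨N₂, hN₂⟩ := eventually_atTop.1 (hK.eventually_ge_atTop (j + 1))
  refine ⟨max (max N₁ N₂) 1, fun N hN => ?_⟩
  have b1 : N₁ ≤ N := (le_max_left _ _).trans ((le_max_left _ _).trans hN)
  have b2 : N₂ ≤ N := (le_max_right _ _).trans ((le_max_left _ _).trans hN)
  have b3 : 1 ≤ N := (le_max_right _ _).trans hN
  have hN1 : (1 : ℝ) ≤ N := by exact_mod_cast b3
  have hKN := hN₂ N b2
  have h2 := hN₁ N b1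
  rw [pow_one] at h2
  refine le_trans ?_ h2
  let g : ℕ → Fin 1 → ℕ := fun m _ => m
  have hg : Function.Injective g := fun a b hab => congrFun hab 0
  have hsub : g '' {m : ℕ | 1 ≤ m ∧ m ≤ N ∧ Bad w 1 (2 ^ (Nat.totient^[j] m + 1)) Z (fun _ => Nat.totient^[j] m + 1)} ⊆
      {m : Fin 1 → ℕ | (∀ i, 1 ≤ m i ∧ m i ≤ N) ∧ ∃ (s : Fin 1 → ℕ) (T : ℕ),
        Near (fun _ m => m) (K N) ((N : ℝ) ^ (1 / 2 : ℝ)) m s ∧
        1 ≤ T ∧ (∀ i, T ≤ s i ∧ s i ≤ 1 * T) ∧ Bad w 1 (2 ^ T) Z s} := by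
    rintro _ ⟨m, ⟨hm1, hm2, hm3⟩, rfl⟩
    refine ⟨fun i => ⟨hm1, hm2⟩, fun _ => Nat.totient^[j] m + 1, Nat.totient^[j] m + 1,
      ⟨fun _ => j, fun _ => 1, fun _ => (Nat.le_succ j).trans hKN, fun _ => ⟨le_rfl, (Nat.le_add_left 1 j).trans hKN⟩,
        fun i => ⟨Nat.le_add_left 1 _, ?_⟩⟩, Nat.le_add_left 1 _,
      fun i => ⟨le_rfl, (one_mul _).ge⟩, hm3⟩
    have e : ((Nat.totient^[j] m + 1 : ℕ) : ℝ) - ((1 : ℕ) : ℝ) * ((orb (fun m => m) j (g m i) : ℕ) : ℝ) = 1 := by
      have e1 : orb (fun m => m) j (g m i) = Nat.totient^[j] m := rfl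
      rw [e1]
      push_cast
      ring
    rw [e, abs_one]
    exact Real.one_le_rpow hN1 (by norm_num)
  have hfin : {m : Fin 1 → ℕ | (∀ i, 1 ≤ m i ∧ m i ≤ N) ∧ ∃ (s : Fin 1 → ℕ) (T : ℕ),
        Near (fun _ m => m) (K N) ((N : ℝ) ^ (1 / 2 : ℝ)) m s ∧
        1 ≤ T ∧ (∀ i, T ≤ s i ∧ s i ≤ 1 * T) ∧ Bad w 1 (2 ^ T) Z s}.Finite := by
    refine (Set.Finite.pi' (t := fun _ : Fin 1 => Set.Icc 1 N) fun _ => Set.finite_Icc _ _).subset ?_
    intro m hm j
    exact ⟨(hm.1 j).1, (hm.1 j).2⟩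
  have h3 := Set.ncard_le_ncard hsub hfin
  rw [Set.ncard_image_of_injective _ hg] at h3
  exact_mod_cast h3

/-- a linear relation which fails for `Z` -/
lemma bad_of_linear {k r : ℕ} (w : Fin r → List (Letter k)) {A : Type} [CommRing A] (Z : List ℕ → A) (s : Fin k → ℕ)
    (B : ℕ) (H : ℝ) (hB1 : (B : ℝ) ≤ H) (a : Fin r → ℤ) (ha : ∀ i, |a i| ≤ B)
    (hR : ∑ i, (a i : ℝ) * mzv (index s (w i)) = 0) (hA : ∑ i, (a i : A) * Z (index s (w i)) ≠ 0) : Bad w 1 H Z s := by
  classical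
  refine ⟨∑ i, MvPolynomial.C (a i) * MvPolynomial.X i, ?_, fun m => ?_, ?_, ?_⟩
  · refine MvPolynomial.totalDegree_finsetSum_le fun i _ => ?_
    refine (MvPolynomial.totalDegree_mul _ _).trans ?_
    rw [MvPolynomial.totalDegree_C, zero_add]
    exact (MvPolynomial.totalDegree_X _).le
  · rw [MvPolynomial.coeff_sum]
    simp only [MvPolynomial.coeff_C_mul, MvPolynomial.coeff_X]
    refine le_trans ?_ hB1
    by_cases hm : ∃ i, Finsupp.single i 1 = m
    · obtain ⟨i₀, rfl⟩ := hm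
      have h4 : ∑ x, a x * (if Finsupp.single x 1 = Finsupp.single i₀ 1 then (1 : ℤ) else 0) = a i₀ := by
        rw [Finset.sum_eq_single i₀]
        · rw [if_pos rfl, mul_one]
        · intro x _ hx
          rw [if_neg, mul_zero]
          intro h5
          exact hx ((Finsupp.single_left_inj one_ne_zero).1 h5)
        · intro h5
          exact absurd (Finset.mem_univ _) h5
      rw [h4]
      exact_mod_cast ha i₀
    · have h4 : ∑ x, a x * (if Finsupp.single x 1 = m then (1 : ℤ) else 0) = 0 := by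
        refine Finset.sum_eq_zero fun x _ => ?_
        rw [if_neg fun h5 => hm ⟨x, h5⟩, mul_zero]
      rw [h4, Int.cast_zero, abs_zero]
      exact Nat.cast_nonneg _
  · rw [map_sum]
    refine Eq.trans (Finset.sum_congr rfl fun i _ => ?_) hR
    rw [map_mul, MvPolynomial.aeval_C, MvPolynomial.aeval_X]
    rfl
  · rw [map_sum]
    intro h5
    refine hA (Eq.trans (Finset.sum_congr rfl fun i _ => ?_) h5)
    rw [map_mul, MvPolynomial.aeval_C, MvPolynomial.aeval_X]
    rfl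

/-- the iterates tend to infinity -/
lemma iter_large (j X : ℕ) : ∃ M : ℕ, ∀ m : ℕ, M < m → X ≤ Nat.totient^[j] m := by
  obtain ⟨C, hC, h⟩ := Run7.h430.TO.lin_iter j (1 / 2) (by norm_num)
  obtain ⟨M, hM⟩ := exists_nat_gt ((C * X) ^ 2)
  refine ⟨M, fun m hm => ?_⟩
  have hm1 : 1 ≤ m := by omega
  have hmr : (M : ℝ) ≤ m := by exact_mod_cast hm.le
  have h1 := (h m hm1).1
  by_contra hcon
  push Not at hcon
  have h2 : ((Nat.totient^[j] m : ℕ) : ℝ) ≤ X := by exact_mod_cast hcon.le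
  have h3 : (m : ℝ) ^ (1 - 1 / 2 : ℝ) ≤ C * X := h1.trans (mul_le_mul_of_nonneg_left h2 (by linarith))
  have h4 : ((m : ℝ) ^ (1 - 1 / 2 : ℝ)) ^ 2 = m := by
    rw [← Real.rpow_natCast, ← Real.rpow_mul (Nat.cast_nonneg _)]
    norm_num
  have h5 : (m : ℝ) ≤ (C * X) ^ 2 := by
    rw [← h4]
    exact pow_le_pow_left₀ (by positivity) h3 2
  linarith

lemma large_of_one {A : Type} [CommRing A] {j : ℕ} (hj : 1 ≤ j) (Z : List ℕ → A) (h : OneOrbit j Z) :
    OneLargeArgument Z := by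
  classical
  intro r w hw B s₁
  by_contra hcon
  push Not at hcon
  obtain ⟨N₀, hN₀⟩ := h r w hw (1 / 2) (by norm_num)
  obtain ⟨M₁, hM₁⟩ := iter_large j (s₁ + B + 1)
  obtain ⟨M₂, hM₂⟩ := iter_large (j - 1) 3
  obtain ⟨M, hM⟩ : ∃ M, M = max M₁ M₂ := ⟨_, rfl⟩
  obtain ⟨N, hN⟩ : ∃ N : ℕ, N = N₀ + 2 * M + 2 := ⟨_, rfl⟩
  have h1 := hN₀ N (by omega)
  have hsub : ((Finset.Ioc M N : Finset ℕ) : Set ℕ) ⊆ {m : ℕ | 1 ≤ m ∧ m ≤ N ∧
      Bad w 1 (2 ^ (Nat.totient^[j] m + 1)) Z (fun _ => Nat.totient^[j] m + 1)} := by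
    intro m hm
    rw [Finset.mem_coe, Finset.mem_Ioc] at hm
    have hmM₁ : M₁ < m := lt_of_le_of_lt (by rw [hM]; exact le_max_left _ _) hm.1
    have hmM₂ : M₂ < m := lt_of_le_of_lt (by rw [hM]; exact le_max_right _ _) hm.1
    have h2 := hM₁ m hmM₁
    have h3 := hM₂ m hmM₂
    have heven : Even (Nat.totient^[j] m) := by
      obtain ⟨i, rfl⟩ : ∃ i, j = i + 1 := ⟨j - 1, by omega⟩
      rw [Function.iterate_succ_apply']
      rw [Nat.add_sub_cancel] at h3
      exact Nat.totient_even (by omega)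
    obtain ⟨v, hv⟩ : ∃ v, v = Nat.totient^[j] m := ⟨_, rfl⟩
    rw [← hv] at h2 heven
    obtain ⟨a, ha, hR, hA⟩ := hcon (v + 1) (by omega) heven.add_one
    refine ⟨by omega, hm.2, ?_⟩
    rw [← hv]
    refine bad_of_linear w Z (fun _ => v + 1) B _ ?_ a ha hR hA
    have h4 : B ≤ 2 ^ (v + 1) := by
      have h5 : v + 1 < 2 ^ (v + 1) := Nat.lt_two_pow_self
      omega
    exact_mod_cast h4
  have hfin : {m : ℕ | 1 ≤ m ∧ m ≤ N ∧
      Bad w 1 (2 ^ (Nat.totient^[j] m + 1)) Z (fun _ => Nat.totient^[j] m + 1)}.Finite :=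
    (Set.finite_Icc 1 N).subset (fun m hm => ⟨hm.1, hm.2.1⟩)
  have h3 := Set.ncard_le_ncard hsub hfin
  rw [Set.ncard_coe_finset, Nat.card_Ioc] at h3
  have h4 : ((N - M : ℕ) : ℝ) ≤ 1 / 2 * N := le_trans (by exact_mod_cast h3) h1
  rw [Nat.cast_sub (by omega), hN] at h4
  push_cast at h4
  have h5 : (0 : ℝ) ≤ N₀ := Nat.cast_nonneg _
  linarith

/-- **Theorem.** (1) Let `w_1, ..., w_r` be admissible patterns in `k ≥ 1` variables, `D`, `κ` natural numbers, `C` a real
number, `F_1, ..., F_k` `Moderate` and `θ ≥ 0`, `k θ < 1`. For almost all `m ∈ [1, N] ^ k` no tuple `s` near the orbits of `m`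
(iterates and multiples up to `K(N)`, windows `N ^ θ`) with `T ≤ s_i ≤ κ T` is bad, for the degree `D` and the height `C ^ T`,
for a family `Z` with the stuffle product for which the relations between the real multiple zeta values of the fronts hold; if
the fronts are even, for a family with `Z(2 m) = 0` for all `m ≥ 1`. (2) For a family `Z` with the stuffle product in a domain,
with `Z(s) ≠ 0` for all large odd `s`, and every `j ≥ 1` the following are equivalent: all polynomial relations between real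
multiple zeta values hold for `Z`; `AllOrbits Z`; `OneOrbit j Z`. (3) The identity, Euler's function and the sum of the divisors
are `Moderate`. -/
theorem result :
    (∀ (k r : ℕ), 1 ≤ k → ∀ w : Fin r → List (Letter k), (∀ i, AdmissiblePattern (w i)) → ∀ (D κ : ℕ) (C : ℝ)
      (F : Fin k → ℕ → ℕ), (∀ i, Moderate (F i)) → ∀ θ : ℝ, 0 ≤ θ → k * θ < 1 →
      NoneNear κ C F θ (BadFor w D fun _ _ _ Z => Transfers (fronts w) Z) ∧
      ((∀ i, EvenFront (w i)) → NoneNear κ C F θ (BadFor w D fun _ _ _ Z => ∀ m, 1 ≤ m → Z [2 * m] = 0))) ∧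
    (∀ (A : Type) [CommRing A] [IsDomain A] [Algebra ℚ A] (Z : List ℕ → A), HasStuffle Z →
      (∃ s₀, ∀ s, s₀ ≤ s → Odd s → Z [s] ≠ 0) → ∀ j : ℕ, 1 ≤ j →
      (Transfers Set.univ Z ↔ AllOrbits Z) ∧ (AllOrbits Z ↔ OneOrbit j Z)) ∧
    (Moderate (fun m => m) ∧ Moderate Nat.totient ∧ Moderate (fun m => ∑ d ∈ m.divisors, d)) := by
  refine ⟨fun k r hk w hw D κ C F hF θ hθ hθk => ⟨?_, fun he => ?_⟩, ?_, moderate_examples⟩
  · exact none_of_few hk κ C hF hθ hθk (fun H H' s => badFor_mono w D _ H H' s) (part1 w hw D (2 * κ))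
  · exact none_of_few hk κ C hF hθ hθk (fun H H' s => badFor_mono w D _ H H' s) (part2 w hw he D (2 * κ))
  · intro A _ _ _ Z hZ hs j hj
    obtain ⟨s₀, hne⟩ := hs
    have hback : OneOrbit j Z → Transfers Set.univ Z := fun h => c_to_a Z hZ s₀ hne (large_of_one hj Z h)
    exact ⟨⟨all_of_transfers Z hZ, fun h => hback (one_of_all j Z h)⟩,
      ⟨one_of_all j Z, fun h => all_of_transfers Z hZ (hback h)⟩⟩

end Pool.Agent.Results.MP_03df5c_nt.TotientOrbits
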